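import Mathlib

/-! Superadditivity of products, a discrete generalized Hölder inequality. -/

set_option autoImplicit false

open Finset

namespace Q123.BESR

theorem holder {L J : Type*} (S : Finset L) (T : Finset J) (hT : T.Nonempty) (e : L → ℝ)
    (a : J → L → ℝ) (c : ℝ) (hc : 0 ≤ c) (he : ∀ l ∈ S, 0 ≤ e l) (ha : ∀ i ∈ T, ∀ l ∈ S, 0 ≤ a i l)
    (h : ∀ l ∈ S, e l ^ T.card ≤ c * ∏ i ∈ T, a i l) :
    (∑ l ∈ S, e l) ^ T.card ≤ c * ∏ i ∈ T, ∑ l ∈ S, a i l := by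
  have hj : T.card ≠ 0 := (card_pos.2 hT).ne'
  have hj' : (0 : ℝ) < T.card := by exact_mod_cast card_pos.2 hT
  have hA : ∀ i ∈ T, 0 ≤ ∑ l ∈ S, a i l := fun i hi => sum_nonneg fun l hl => ha i hi l hl
  by_cases h0 : ∃ i ∈ T, ∑ l ∈ S, a i l = 0
  · obtain ⟨i, hi, h1⟩ := h0
    have h2 : ∀ l ∈ S, a i l = 0 := (sum_eq_zero_iff_of_nonneg fun l hl => ha i hi l hl).1 h1
    have h3 : ∑ l ∈ S, e l = 0 := by
      apply sum_eq_zero
      intro l hl
      have h4 := h l hl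
      rw [prod_eq_zero hi (h2 l hl), mul_zero] at h4
      have h5 : e l ^ T.card = 0 := le_antisymm h4 (pow_nonneg (he l hl) _)
      exact eq_zero_of_pow_eq_zero h5
    rw [h3, zero_pow hj]
    exact mul_nonneg hc (prod_nonneg hA)
  · push Not at h0
    have hApos : ∀ i ∈ T, 0 < ∑ l ∈ S, a i l := fun i hi => lt_of_le_of_ne (hA i hi) (h0 i hi).symm
    set P : ℝ := c * ∏ i ∈ T, ∑ l ∈ S, a i l with hP
    have hP0 : 0 ≤ P := mul_nonneg hc (prod_nonneg hA)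
    -- the `j`-th root
    set ρ : ℝ := P ^ ((T.card : ℝ)⁻¹) with hρ
    have hρ0 : 0 ≤ ρ := Real.rpow_nonneg hP0 _
    have hρj : ρ ^ T.card = P := by
      rw [hρ, ← Real.rpow_natCast, ← Real.rpow_mul hP0, inv_mul_cancel₀ hj'.ne', Real.rpow_one]
    have key : ∀ l ∈ S, e l ≤ ρ * ∑ i ∈ T, (T.card : ℝ)⁻¹ * (a i l / ∑ l ∈ S, a i l) := by
      intro l hl
      have h1 : ∏ i ∈ T, (a i l / ∑ l ∈ S, a i l) ^ ((T.card : ℝ)⁻¹) ≤
          ∑ i ∈ T, (T.card : ℝ)⁻¹ * (a i l / ∑ l ∈ S, a i l) := by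
        apply Real.geom_mean_le_arith_mean_weighted
        · intro i _
          positivity
        · rw [sum_const, nsmul_eq_mul, mul_inv_cancel₀ hj'.ne']
        · intro i hi
          exact div_nonneg (ha i hi l hl) (hA i hi)
      refine le_trans ?_ (mul_le_mul_of_nonneg_left h1 hρ0)
      have h2 : 0 ≤ ρ * ∏ i ∈ T, (a i l / ∑ l ∈ S, a i l) ^ ((T.card : ℝ)⁻¹) :=
        mul_nonneg hρ0 (prod_nonneg fun i hi => Real.rpow_nonneg (div_nonneg (ha i hi l hl) (hA i hi)) _)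
      refine (pow_le_pow_iff_left₀ (he l hl) h2 hj).1 ?_
      rw [mul_pow, hρj, ← prod_pow]
      have h3 : ∏ i ∈ T, ((a i l / ∑ l ∈ S, a i l) ^ ((T.card : ℝ)⁻¹)) ^ T.card =
          (∏ i ∈ T, a i l) / ∏ i ∈ T, ∑ l ∈ S, a i l := by
        rw [← prod_div_distrib]
        refine prod_congr rfl fun i hi => ?_
        rw [← Real.rpow_natCast, ← Real.rpow_mul (div_nonneg (ha i hi l hl) (hA i hi)),
          inv_mul_cancel₀ hj'.ne', Real.rpow_one]
      rw [h3, hP]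
      have h4 : (∏ i ∈ T, ∑ l ∈ S, a i l) ≠ 0 := (prod_pos hApos).ne'
      calc e l ^ T.card ≤ c * ∏ i ∈ T, a i l := h l hl
        _ = c * (∏ i ∈ T, ∑ l ∈ S, a i l) * ((∏ i ∈ T, a i l) / ∏ i ∈ T, ∑ l ∈ S, a i l) := by
            field_simp
    have hsum : ∑ l ∈ S, e l ≤ ρ := by
      calc ∑ l ∈ S, e l ≤ ∑ l ∈ S, ρ * ∑ i ∈ T, (T.card : ℝ)⁻¹ * (a i l / ∑ l ∈ S, a i l) :=
            sum_le_sum key
        _ = ρ * ∑ i ∈ T, ∑ l ∈ S, (T.card : ℝ)⁻¹ * (a i l / ∑ l ∈ S, a i l) := by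
            rw [← mul_sum, sum_comm]
        _ = ρ * ∑ i ∈ T, (T.card : ℝ)⁻¹ := by
            congr 1
            refine sum_congr rfl fun i hi => ?_
            rw [← mul_sum, ← sum_div, div_self (h0 i hi), mul_one]
        _ = ρ := by
            rw [sum_const, nsmul_eq_mul, mul_inv_cancel₀ hj'.ne', mul_one]
    calc (∑ l ∈ S, e l) ^ T.card ≤ ρ ^ T.card :=
          pow_le_pow_left₀ (sum_nonneg he) hsum _
      _ = P := hρj

/-- the version for natural numbers -/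
theorem holder_nat {L J : Type*} (S : Finset L) (T : Finset J) (hT : T.Nonempty) (e : L → ℕ)
    (a : J → L → ℕ) (c : ℕ) (h : ∀ l ∈ S, e l ^ T.card ≤ c * ∏ i ∈ T, a i l) :
    (∑ l ∈ S, e l) ^ T.card ≤ c * ∏ i ∈ T, ∑ l ∈ S, a i l := by
  have := holder S T hT (fun l => (e l : ℝ)) (fun i l => (a i l : ℝ)) c (Nat.cast_nonneg _)
    (fun _ _ => Nat.cast_nonneg _) (fun _ _ _ _ => Nat.cast_nonneg _)
    (fun l hl => by exact_mod_cast h l hl)
  exact_mod_cast this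

end Q123.BESR
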