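import Mathlib
import Pool.Agent.Q123.BES.NU
import Pool.Agent.Q123.BESR.Holder

/-!
`r`-partite `r`-uniform hypergraphs closed under near unanimity operations.
-/

set_option autoImplicit false
set_option linter.unusedSectionVars false

open Finset Relation

namespace Q123.BESR

variable {ι : Type*} [DecidableEq ι] [Fintype ι] {X : ι → Type*} [∀ i, DecidableEq (X i)]

/-- closed under componentwise operations -/
def Cl {q : ℕ} (t : ∀ i, (Fin q → X i) → X i) (H : Finset (∀ i, X i)) : Prop :=
  ∀ a : Fin q → (∀ i, X i), (∀ l, a l ∈ H) → (fun i => t i fun l => a l i) ∈ H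

/-- members of `H` which agree in some coordinate belonging to `J` -/
def R (H : Finset (∀ i, X i)) (J : Finset ι) (a b : ∀ i, X i) : Prop :=
  a ∈ H ∧ b ∈ H ∧ ∃ i ∈ J, a i = b i

/-- the same with the same `k`-th coordinate -/
def Rk (H : Finset (∀ i, X i)) (J : Finset ι) (k : ι) (a b : ∀ i, X i) : Prop :=
  R H J a b ∧ a k = b k

section
variable {q : ℕ} {t : ∀ i, (Fin q → X i) → X i} {H : Finset (∀ i, X i)}

/-- the operation, applied componentwise -/
def app (t : ∀ i, (Fin q → X i) → X i) (a : Fin q → (∀ i, X i)) : ∀ i, X i :=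
  fun i => t i fun l => a l i

/-- the arguments `h, ..., h, g, h', ..., h'` -/
def args (h h' : ∀ i, X i) (j : ℕ) (g : ∀ i, X i) : Fin q → (∀ i, X i) :=
  fun l => if l.val < j then h else if l.val = j then g else h'

lemma connect (hcl : Cl t H) (ht : ∀ i, BES.NU (t i)) {J : Finset ι} {k : ι}
    {h h' : ∀ i, X i} (hh : h ∈ H) (hh' : h' ∈ H)
    (hz : h k = h' k) (hR : ReflTransGen (R H J) h h') {j : ℕ} (hj : j < q) :
    ReflTransGen (Rk H J k) (app t (args h h' j h)) (app t (args h h' j h')) := by
  have hmem : ∀ g ∈ H, app t (args h h' j g) ∈ H := by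
    intro g hg
    apply hcl
    intro l
    unfold args
    split_ifs
    · exact hh
    · exact hg
    · exact hh'
  have hzz : ∀ g, (app t (args h h' j g)) k = h k := by
    intro g
    have : (fun l : Fin q => (args h h' j g l) k) =
        Function.update (fun _ => h k) ⟨j, hj⟩ (g k) := by
      ext l
      unfold args
      by_cases h1 : l.val < j
      · rw [if_pos h1, Function.update_of_ne]
        intro h2
        rw [h2] at h1
        exact absurd h1 (lt_irrefl _)
      · rw [if_neg h1]
        by_cases h2 : l.val = j
        · rw [if_pos h2]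
          have : l = ⟨j, hj⟩ := Fin.ext h2
          rw [this, Function.update_self]
        · rw [if_neg h2, Function.update_of_ne]
          · exact hz.symm
          · intro h3
            exact h2 (congrArg Fin.val h3)
    change t k (fun l : Fin q => (args h h' j g l) k) = h k
    rw [this]
    exact ht k _ _ _
  refine ReflTransGen.lift (fun g => app t (args h h' j g)) ?_ _ _ hR
  intro a b hab
  refine ⟨⟨hmem a hab.1, hmem b hab.2.1, ?_⟩, (hzz a).trans (hzz b).symm⟩
  obtain ⟨i, hi, h1⟩ := hab.2.2
  refine ⟨i, hi, ?_⟩
  change t i (fun l => (args h h' j a l) i) = t i fun l => (args h h' j b l) i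
  congr 1
  ext l
  unfold args
  split_ifs
  · rfl
  · exact h1
  · rfl

lemma connect_all (hq : 0 < q) (hcl : Cl t H) (ht : ∀ i, BES.NU (t i)) {J : Finset ι} {k : ι}
    {h h' : ∀ i, X i} (hh : h ∈ H) (hh' : h' ∈ H) (hz : h k = h' k)
    (hR : ReflTransGen (R H J) h h') : ReflTransGen (Rk H J k) h h' := by
  have happ : ∀ g : ∀ i, X i, app t (fun _ => g) = g := by
    intro g
    funext i
    exact (ht i).idem hq (g i)
  have key : ∀ j, j < q → ReflTransGen (Rk H J k) (app t (args h h' j h)) h' := by
    intro j
    induction j with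
    | zero =>
      intro hj
      have h1 := connect hcl ht hh hh' hz hR hj
      have h2 : app t (args h h' 0 h') = h' := by
        have e : (args h h' 0 h' : Fin q → ∀ i, X i) = fun _ => h' := by
          ext1 l
          unfold args
          split_ifs
          · omega
          · rfl
          · rfl
        rw [e, happ]
      rwa [h2] at h1
    | succ j ih =>
      intro hj
      have h1 := connect hcl ht hh hh' hz hR hj
      have h2 : (args h h' (j + 1) h' : Fin q → ∀ i, X i) = args h h' j h := by
        ext1 l
        unfold args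
        by_cases h3 : l.val < j
        · rw [if_pos (by omega), if_pos h3]
        · by_cases h4 : l.val = j
          · rw [if_pos (by omega), if_neg h3, if_pos h4]
          · rw [if_neg (by omega), if_neg h3, if_neg h4]
            split_ifs <;> rfl
      rw [h2] at h1
      exact h1.trans (ih (by omega))
  have h1 := key (q - 1) (by omega)
  have h2 : app t (args h h' (q - 1) h) = h := by
    have e : (args h h' (q - 1) h : Fin q → ∀ i, X i) = fun _ => h := by
      ext1 l
      unfold args
      have := l.2
      by_cases h3 : l.val < q - 1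
      · rw [if_pos h3]
      · rw [if_neg h3, if_pos (by omega)]
    rw [e, happ]
  rwa [h2] at h1

end

/-- the number of vertices of the `r`-partite hypergraph covered by the edges of `T` -/
def span (T : Finset (∀ i, X i)) : ℕ := ∑ i, (T.image fun g => g i).card

lemma span_insert {T : Finset (∀ i, X i)} {a b : ∀ i, X i} (ha : a ∈ T) {i k : ι} (hik : i ≠ k)
    (h1 : a i = b i) (h2 : a k = b k) :
    span (insert b T) + 2 ≤ span T + Fintype.card ι := by
  unfold span
  have h3 : ∀ j, ((insert b T).image fun g => g j).card ≤ (T.image fun g => g j).card +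
      (if j = i ∨ j = k then 0 else 1) := by
    intro j
    rw [image_insert]
    split_ifs with h
    · have : b j ∈ T.image fun g => g j := by
        rcases h with rfl | rfl
        · exact mem_image.2 ⟨a, ha, h1⟩
        · exact mem_image.2 ⟨a, ha, h2⟩
      rw [insert_eq_self.2 this]
      omega
    · exact card_insert_le _ _
  have h4 := sum_le_sum (s := univ) fun j _ => h3 j
  rw [sum_add_distrib] at h4
  have h5 : (∑ j : ι, if j = i ∨ j = k then 0 else 1) + 2 = Fintype.card ι := by
    have h6 : (∑ j : ι, if j = i ∨ j = k then 0 else 1) = (univ \ {i, k} : Finset ι).card := by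
      rw [card_eq_sum_ones, ← sum_filter_add_sum_filter_not univ (fun j => j = i ∨ j = k)]
      have e1 : ∑ j ∈ univ.filter (fun j => j = i ∨ j = k), (if j = i ∨ j = k then 0 else 1) = 0 := by
        apply sum_eq_zero
        intro j hj
        rw [if_pos (mem_filter.1 hj).2]
      have e2 : univ.filter (fun j => ¬ (j = i ∨ j = k)) = (univ \ {i, k} : Finset ι) := by
        ext j
        simp
      rw [e1, zero_add, e2]
      apply sum_congr rfl
      intro j hj
      rw [if_neg]
      simpa using hj
    rw [h6, card_sdiff_of_subset (subset_univ _), card_pair hik, card_univ]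
    have : 2 ≤ Fintype.card ι := by
      rw [← card_pair hik]
      exact card_le_univ _
    omega
  omega

/-- a large component of a link contains a tree with any given number of edges -/
lemma exists_tree {H : Finset (∀ i, X i)} {J : Finset ι} {k : ι} (hk : k ∉ J) {h : ∀ i, X i}
    (C : Finset (∀ i, X i)) (hhC : h ∈ C)
    (hC : ∀ g ∈ C, ReflTransGen (Rk H J k) h g) (hCc : ∀ g, ReflTransGen (Rk H J k) h g → g ∈ C)
    (m : ℕ) : m + 1 ≤ C.card → ∃ T ⊆ C, T.card = m + 1 ∧ h ∈ T ∧
      span T + 2 * m ≤ Fintype.card ι * (m + 1) := by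
  induction m with
  | zero =>
    intro _
    refine ⟨{h}, singleton_subset_iff.2 hhC, by simp, by simp, ?_⟩
    unfold span
    simp
  | succ m ih =>
    intro hm
    obtain ⟨T, hT, hTc, hhT, hv⟩ := ih (by omega)
    obtain ⟨c, hcC, hcT⟩ : ∃ c ∈ C, c ∉ T := by
      by_contra hcon
      push Not at hcon
      have := card_le_card (show C ⊆ T from hcon)
      omega
    -- an edge leaving `T`
    have hex : ∀ g, ReflTransGen (Rk H J k) h g → g ∉ T → ∃ a ∈ T, ∃ b, b ∉ T ∧ Rk H J k a b ∧
        ReflTransGen (Rk H J k) h b := by
      intro g hg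
      induction hg with
      | refl => exact fun h1 => absurd hhT h1
      | tail hab hbc ih2 =>
        rename_i b c
        intro hc
        by_cases hb : b ∈ T
        · exact ⟨b, hb, c, hc, hbc, hab.tail hbc⟩
        · exact ih2 hb
    obtain ⟨a, ha, b, hb, hab, hhb⟩ := hex c (hC c hcC) hcT
    obtain ⟨i, hi, h1⟩ := hab.1.2.2
    have hik : i ≠ k := fun h => hk (h ▸ hi)
    refine ⟨insert b T, insert_subset (hCc b hhb) hT, by rw [card_insert_of_notMem hb, hTc],
      mem_insert_of_mem hhT, ?_⟩
    have h2 := span_insert ha hik h1 hab.2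
    have h3 : Fintype.card ι * (m + 1 + 1) = Fintype.card ι * (m + 1) + Fintype.card ι := by ring
    omega

/-- the main counting argument -/
theorem count (H : Finset (∀ i, X i)) (D : ℕ)
    (hD : ∀ (J : Finset ι) (k : ι), k ∉ J → ∀ h ∈ H, ∀ C : Finset (∀ i, X i),
      (∀ g ∈ C, g ∈ H ∧ g k = h k ∧ ReflTransGen (R H J) h g) → C.card ≤ D)
    (J : Finset ι) : ∀ k ∉ J, ∀ F ⊆ H, F.Nonempty → (∀ a ∈ F, ∀ b, R H J a b → b ∈ F) →
      F.card ^ J.card ≤ D ^ J.card *
        ((F.image fun g => g k).card * ∏ i ∈ J, (F.image fun g => g i).card) := by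
  classical
  induction J using Finset.induction_on with
  | empty =>
    intro k _ F _ hF _
    have := card_pos.2 (hF.image fun g => g k)
    simp only [card_empty, pow_zero, one_mul, prod_empty, mul_one]
    exact this
  | insert k0 J hk0 ih =>
    intro k hk F hFH hF hcl
    set J' := insert k0 J with hJ'
    have hsymm : ∀ a b, R H J' a b → R H J' b a := fun a b hab => by
      obtain ⟨i, hi, h1⟩ := hab.2.2
      exact ⟨hab.2.1, hab.1, i, hi, h1.symm⟩
    have hsymm' : ∀ a b, ReflTransGen (R H J') a b → ReflTransGen (R H J') b a := by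
      intro a b hab
      induction hab with
      | refl => exact ReflTransGen.refl
      | tail _ hbc ih => exact ReflTransGen.head (hsymm _ _ hbc) ih
    let c : (∀ i, X i) → Set (∀ i, X i) := fun h => {g | ReflTransGen (R H J') h g}
    have hc : ∀ a b, ReflTransGen (R H J') a b → c a = c b := by
      intro a b hab
      ext g
      exact ⟨fun h => (hsymm' a b hab).trans h, fun h => hab.trans h⟩
    have hc' : ∀ a b, c a = c b → ReflTransGen (R H J') a b := by
      intro a b hab
      have : b ∈ c b := ReflTransGen.refl
      rw [← hab] at this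
      exact this
    set I := F.image c with hI
    let Fi : Set (∀ i, X i) → Finset (∀ i, X i) := fun l => F.filter fun h => c h = l
    have hsumF : F.card = ∑ l ∈ I, (Fi l).card := card_eq_sum_card_image c F
    have hne : ∀ l ∈ I, (Fi l).Nonempty := by
      intro l hl
      obtain ⟨a, ha, rfl⟩ := mem_image.1 hl
      exact ⟨a, mem_filter.2 ⟨ha, rfl⟩⟩
    have hsumx : ∀ i ∈ J', ∑ l ∈ I, ((Fi l).image fun g => g i).card ≤
        (F.image fun g => g i).card := by
      intro i hi
      rw [← card_biUnion]
      · refine card_le_card ?_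
        intro x hx
        obtain ⟨l, _, hx⟩ := mem_biUnion.1 hx
        obtain ⟨g, hg, rfl⟩ := mem_image.1 hx
        exact mem_image.2 ⟨g, (mem_filter.1 hg).1, rfl⟩
      · intro l _ l' _ hll
        change Disjoint ((Fi l).image fun g => g i) ((Fi l').image fun g => g i)
        rw [disjoint_left]
        intro x hx hx'
        obtain ⟨g, hg, rfl⟩ := mem_image.1 hx
        obtain ⟨g', hg', hgg'⟩ := mem_image.1 hx'
        rw [mem_filter] at hg hg'
        apply hll
        rw [← hg.2, ← hg'.2]
        exact hc _ _ (ReflTransGen.single ⟨hFH hg.1, hFH hg'.1, i, hi, hgg'.symm⟩)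
    have h1 : ∀ l ∈ I, (Fi l).card ^ J.card ≤ D ^ J.card *
        ∏ i ∈ J', ((Fi l).image fun g => g i).card := by
      intro l hl
      have h2 := ih k0 hk0 (Fi l) ((filter_subset _ _).trans hFH) (hne l hl) ?_
      · rwa [hJ', prod_insert hk0]
      · intro a ha b hab
        rw [mem_filter] at ha ⊢
        have h3 : R H J' a b := by
          obtain ⟨i, hi, h4⟩ := hab.2.2
          exact ⟨hab.1, hab.2.1, i, mem_insert_of_mem hi, h4⟩
        exact ⟨hcl a ha.1 b h3, by rw [← ha.2]; exact (hc _ _ (ReflTransGen.single h3)).symm⟩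
    have h2 : ∀ l, (Fi l).card ≤ D * (F.image fun g => g k).card := by
      intro l
      refine card_le_mul_card_image_of_maps_to (f := fun g => g k) ?_ D ?_
      · intro g hg
        exact mem_image.2 ⟨g, (mem_filter.1 hg).1, rfl⟩
      · intro z _
        rcases ((Fi l).filter fun g => g k = z).eq_empty_or_nonempty with h3 | ⟨h, hh⟩
        · rw [h3]; simp
        · rw [mem_filter] at hh
          have hh1 := mem_filter.1 hh.1
          refine hD J' k hk h (hFH hh1.1) _ fun g hg => ?_
          rw [mem_filter] at hg
          have hg1 := mem_filter.1 hg.1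
          exact ⟨hFH hg1.1, hg.2.trans hh.2.symm, hc' _ _ (hh1.2.trans hg1.2.symm)⟩
    have hJc : J'.card = J.card + 1 := card_insert_of_notMem hk0
    have h3 : ∀ l ∈ I, (Fi l).card ^ J'.card ≤ (D ^ J'.card * (F.image fun g => g k).card) *
        ∏ i ∈ J', ((Fi l).image fun g => g i).card := by
      intro l hl
      rw [hJc, pow_succ, pow_succ]
      calc (Fi l).card ^ J.card * (Fi l).card
          ≤ (D ^ J.card * ∏ i ∈ J', ((Fi l).image fun g => g i).card) *
            (D * (F.image fun g => g k).card) := Nat.mul_le_mul (h1 l hl) (h2 l)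
        _ = _ := by ring
    have h4 := holder_nat I J' (insert_nonempty _ _) (fun l => (Fi l).card)
      (fun i l => ((Fi l).image fun g => g i).card) _ h3
    rw [← hsumF] at h4
    refine h4.trans ?_
    rw [mul_assoc]
    exact Nat.mul_le_mul_left _ (Nat.mul_le_mul_left _ (prod_le_prod' fun i hi => hsumx i hi))

end Q123.BESR
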