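import Pool.Agent.Q123.BESR.Classes

/-!
Sparse and linear `r`-partite `r`-uniform hypergraphs closed under near unanimity operations.
-/

set_option autoImplicit false
set_option linter.unusedSectionVars false

open Finset Relation

namespace Q123.BESR

variable {ι : Type*} [DecidableEq ι] [Fintype ι] {X : ι → Type*} [∀ i, DecidableEq (X i)]

lemma final [∀ i, Fintype (X i)] (k : ι) (H : Finset (∀ i, X i)) (D : ℕ) (hι : 2 ≤ Fintype.card ι)
    (hD : ∀ (J : Finset ι) (k : ι), k ∉ J → ∀ h ∈ H, ∀ C : Finset (∀ i, X i),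
      (∀ g ∈ C, g ∈ H ∧ g k = h k ∧ ReflTransGen (R H J) h g) → C.card ≤ D) :
    H.card ^ (Fintype.card ι - 1) ≤ D ^ (Fintype.card ι - 1) * ∏ i, Fintype.card (X i) := by
  rcases H.eq_empty_or_nonempty with rfl | hH
  · rw [card_empty, zero_pow (by omega)]
    exact Nat.zero_le _
  · have h := count H D hD (univ.erase k) k (notMem_erase _ _) H subset_rfl hH
      fun a _ b hab => hab.2.1
    rw [card_erase_of_mem (mem_univ _), card_univ] at h
    refine h.trans (Nat.mul_le_mul_left _ ?_)
    rw [mul_prod_erase univ (fun i => (H.image fun g => g i).card) (mem_univ k)]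
    exact prod_le_prod' fun i _ => card_le_univ _

theorem sparse [∀ i, Fintype (X i)] {e q : ℕ} (he : 0 < e) (hq : 0 < q)
    (hι : 2 ≤ Fintype.card ι) {t : ∀ i, (Fin q → X i) → X i} (ht : ∀ i, BES.NU (t i))
    {H : Finset (∀ i, X i)} (hcl : Cl t H)
    (hsp : ∀ T : Finset (∀ i, X i), T ⊆ H → T.card = e →
      (Fintype.card ι - 2) * e + 2 < span T) :
    H.card ^ (Fintype.card ι - 1) ≤
      (e - 1) ^ (Fintype.card ι - 1) * ∏ i, Fintype.card (X i) := by
  classical
  have : Nonempty ι := Fintype.card_pos_iff.1 (by omega)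
  apply final (Classical.arbitrary ι) H _ hι
  intro J k hk h hh C hC
  set C' := H.filter fun g => ReflTransGen (Rk H J k) h g with hC'
  have hsub : C ⊆ C' := by
    intro g hg
    obtain ⟨h1, h2, h3⟩ := hC g hg
    exact mem_filter.2 ⟨h1, connect_all hq hcl ht hh h1 h2.symm h3⟩
  refine (card_le_card hsub).trans ?_
  by_contra hcon
  push Not at hcon
  have hcl' : ∀ g, ReflTransGen (Rk H J k) h g → g ∈ C' := by
    intro g hg
    refine mem_filter.2 ⟨?_, hg⟩
    cases hg with
    | refl => exact hh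
    | tail _ hbc => exact hbc.1.2.1
  obtain ⟨T, hT, hTc, -, hTv⟩ := exists_tree hk C' (hcl' h ReflTransGen.refl)
    (fun g hg => (mem_filter.1 hg).2) hcl' (e - 1) (by omega)
  have h1 := hsp T (hT.trans (filter_subset _ _)) (by omega)
  have h2 : e - 1 + 1 = e := by omega
  rw [h2] at hTv
  obtain ⟨s, hs⟩ := Nat.exists_eq_add_of_le hι
  rw [hs] at h1 hTv
  have h3 : (2 + s) * e = 2 * e + s * e := by ring
  have h4 : (2 + s - 2) * e = s * e := by congr 1; omega
  omega

/-- two members which agree in two coordinates are equal -/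
def Lin (H : Finset (∀ i, X i)) : Prop :=
  ∀ e ∈ H, ∀ e' ∈ H, ∀ i j, i ≠ j → e i = e' i → e j = e' j → e = e'

theorem linear [∀ i, Fintype (X i)] {q : ℕ} (hq : 0 < q)
    (hι : 2 ≤ Fintype.card ι) {t : ∀ i, (Fin q → X i) → X i} (ht : ∀ i, BES.NU (t i))
    {H : Finset (∀ i, X i)} (hcl : Cl t H) (hlin : Lin H) :
    H.card ^ (Fintype.card ι - 1) ≤ ∏ i, Fintype.card (X i) := by
  classical
  have : Nonempty ι := Fintype.card_pos_iff.1 (by omega)
  have h := final (Classical.arbitrary ι) H 1 hι ?_
  · simpa using h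
  · intro J k hk h hh C hC
    have key : ∀ g, ReflTransGen (Rk H J k) h g → g = h := by
      intro g hg
      induction hg with
      | refl => rfl
      | tail _ hbc ih =>
        rename_i b c _
        obtain ⟨i, hi, h1⟩ := hbc.1.2.2
        have hik : i ≠ k := fun h => hk (h ▸ hi)
        have := hlin b hbc.1.1 c hbc.1.2.1 i k hik h1 hbc.2
        rw [← this, ih]
    rw [card_le_one]
    intro g hg g' hg'
    obtain ⟨h1, h2, h3⟩ := hC g hg
    obtain ⟨h1', h2', h3'⟩ := hC g' hg'
    rw [key g (connect_all hq hcl ht hh h1 h2.symm h3),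
      key g' (connect_all hq hcl ht hh h1' h2'.symm h3')]

/-- equality -/
def prodSys (r m : ℕ) : Finset (∀ i : Fin r, ({j : Fin r // j ≠ i} → Fin m)) :=
  univ.image fun (p : Fin r → Fin m) i j => p j

/-- the operation `t` on functions -/
def powOp {J : Type*} {q m : ℕ} (t : (Fin q → Fin m) → Fin m) (a : Fin q → (J → Fin m)) :
    J → Fin m :=
  fun j => t fun l => a l j

lemma powOp_nu {J : Type*} {q m : ℕ} {t : (Fin q → Fin m) → Fin m} (h : BES.NU t) :
    BES.NU (powOp (J := J) t) := by
  intro l x y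
  funext j
  unfold powOp
  have h1 : (fun l' => (Function.update (fun _ : Fin q => x) l y l') j) =
      Function.update (fun _ => x j) l (y j) := by
    ext l'
    by_cases h2 : l' = l
    · rw [h2, Function.update_self, Function.update_self]
    · rw [Function.update_of_ne h2, Function.update_of_ne h2]
  rw [h1, h]

lemma prodSys_cl {q r m : ℕ} (t : (Fin q → Fin m) → Fin m) :
    Cl (fun i : Fin r => powOp (J := {j : Fin r // j ≠ i}) t) (prodSys r m) := by
  intro a ha
  choose p hp using fun l => mem_image.1 (ha l)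
  have hp := fun l => (hp l).2
  refine mem_image.2 ⟨fun j => t fun l => p l j, mem_univ _, ?_⟩
  have e : a = fun l i (j : {j : Fin r // j ≠ i}) => p l j := by
    ext1 l
    exact (hp l).symm
  rw [e]
  rfl

lemma prodSys_lin (r m : ℕ) : Lin (prodSys r m) := by
  intro e he e' he' i i' hii h1 h2
  obtain ⟨p, -, rfl⟩ := mem_image.1 he
  obtain ⟨p', -, rfl⟩ := mem_image.1 he'
  have h3 : p = p' := by
    funext j
    by_cases hj : j = i
    · exact congrFun h2 ⟨j, by rw [hj]; exact hii⟩
    · exact congrFun h1 ⟨j, hj⟩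
  rw [h3]

lemma prodSys_card {r : ℕ} (hr : 2 ≤ r) (m : ℕ) : (prodSys r m).card = m ^ r := by
  unfold prodSys
  rw [card_image_of_injective]
  · simp
  · intro p p' h
    funext j
    obtain ⟨i, hi⟩ : ∃ i : Fin r, i ≠ j := by
      by_cases h0 : j.val = 0
      · exact ⟨⟨1, by omega⟩, fun h => by rw [← h] at h0; simp at h0⟩
      · exact ⟨⟨0, by omega⟩, fun h => by rw [← h] at h0; simp at h0⟩
    have h1 := congrFun (congrFun h i) ⟨j, hi.symm⟩
    exact h1

end Q123.BESR
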